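import Pool.Agent.HofQ.Basic

set_option autoImplicit false
set_option linter.unusedSimpArgs false

/-!
# Hofstadter's Q-sequence: the value 7
-/

namespace Pool.Agent.H10HQ

open Pool.Agent.HofQ

variable {f : ℕ → ℕ}

/-- the values at 3, ..., 24 -/
lemma vals (h : Sol f) : f 3 = 2 ∧ f 4 = 3 ∧ f 5 = 3 ∧ f 6 = 4 ∧ f 7 = 5 ∧ f 8 = 5 ∧ f 9 = 6 ∧
    f 10 = 6 ∧ f 11 = 6 ∧ f 12 = 8 ∧ f 13 = 8 ∧ f 14 = 8 ∧ f 15 = 10 ∧ f 16 = 9 ∧ f 17 = 10 ∧
    f 18 = 11 ∧ f 19 = 11 ∧ f 20 = 12 ∧ f 21 = 12 ∧ f 22 = 12 ∧ f 23 = 12 ∧ f 24 = 16 := by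
  have v1 := h.h1
  have v2 := h.h2
  have v3 : f 3 = 2 := by rw [h.eqn 3 (by norm_num)]; simp [v1, v2]
  have v4 : f 4 = 3 := by rw [h.eqn 4 (by norm_num)]; simp [v1, v2, v3]
  have v5 : f 5 = 3 := by rw [h.eqn 5 (by norm_num)]; simp [v1, v2, v3, v4]
  have v6 : f 6 = 4 := by rw [h.eqn 6 (by norm_num)]; simp [v1, v2, v3, v4, v5]
  have v7 : f 7 = 5 := by rw [h.eqn 7 (by norm_num)]; simp [v1, v2, v3, v4, v5, v6]
  have v8 : f 8 = 5 := by rw [h.eqn 8 (by norm_num)]; simp [v1, v2, v3, v4, v5, v6, v7]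
  have v9 : f 9 = 6 := by rw [h.eqn 9 (by norm_num)]; simp [v1, v2, v3, v4, v5, v6, v7, v8]
  have v10 : f 10 = 6 := by rw [h.eqn 10 (by norm_num)]; simp [v1, v2, v3, v4, v5, v6, v7, v8, v9]
  have v11 : f 11 = 6 := by rw [h.eqn 11 (by norm_num)]; simp [v3, v4, v5, v6, v7, v8, v9, v10]
  have v12 : f 12 = 8 := by rw [h.eqn 12 (by norm_num)]; simp [v3, v4, v5, v6, v7, v8, v9, v10, v11]
  have v13 : f 13 = 8 := by
    rw [h.eqn 13 (by norm_num)]; simp [v3, v4, v5, v6, v7, v8, v9, v10, v11, v12]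
  have v14 : f 14 = 8 := by
    rw [h.eqn 14 (by norm_num)]; simp [v3, v4, v5, v6, v7, v8, v9, v10, v11, v12, v13]
  have v15 : f 15 = 10 := by
    rw [h.eqn 15 (by norm_num)]; simp [v3, v4, v5, v6, v7, v8, v9, v10, v11, v12, v13, v14]
  have v16 : f 16 = 9 := by
    rw [h.eqn 16 (by norm_num)]; simp [v3, v4, v5, v6, v7, v8, v9, v10, v11, v12, v13, v14, v15]
  have v17 : f 17 = 10 := by
    rw [h.eqn 17 (by norm_num)]
    simp [v3, v4, v5, v6, v7, v8, v9, v10, v11, v12, v13, v14, v15, v16]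
  have v18 : f 18 = 11 := by
    rw [h.eqn 18 (by norm_num)]
    simp [v3, v4, v5, v6, v7, v8, v9, v10, v11, v12, v13, v14, v15, v16, v17]
  have v19 : f 19 = 11 := by
    rw [h.eqn 19 (by norm_num)]
    simp [v3, v4, v5, v6, v7, v8, v9, v10, v11, v12, v13, v14, v15, v16, v17, v18]
  have v20 : f 20 = 12 := by
    rw [h.eqn 20 (by norm_num)]
    simp [v3, v4, v5, v6, v7, v8, v9, v10, v11, v12, v13, v14, v15, v16, v17, v18, v19]
  have v21 : f 21 = 12 := by
    rw [h.eqn 21 (by norm_num)]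
    simp [v3, v4, v5, v6, v7, v8, v9, v10, v11, v12, v13, v14, v15, v16, v17, v18, v19, v20]
  have v22 : f 22 = 12 := by
    rw [h.eqn 22 (by norm_num)]
    simp [v3, v4, v5, v6, v7, v8, v9, v10, v11, v12, v13, v14, v15, v16, v17, v18, v19, v20, v21]
  have v23 : f 23 = 12 := by
    rw [h.eqn 23 (by norm_num)]
    simp [v3, v4, v5, v6, v7, v8, v9, v10, v11, v12, v13, v14, v15, v16, v17, v18, v19, v20, v21,
      v22]
  have v24 : f 24 = 16 := by
    rw [h.eqn 24 (by norm_num)]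
    simp [v3, v4, v5, v6, v7, v8, v9, v10, v11, v12, v13, v14, v15, v16, v17, v18, v19, v20, v21,
      v22, v23]
  exact ⟨v3, v4, v5, v6, v7, v8, v9, v10, v11, v12, v13, v14, v15, v16, v17, v18, v19, v20, v21,
    v22, v23, v24⟩

lemma pairs (h : Sol f) (A b : ℕ) (hA : 1 ≤ A) (hA' : A ≤ 11) (hb : 1 ≤ b) (hb' : b ≤ 10)
    (hs : f A + f (b + 1) ≤ 7) (hd : 9 ≤ A + f b) :
    (A = 6 ∧ b = 4) ∨ (A = 8 ∧ b = 1) ∨ (A = 9 ∧ b = 1) ∨ (A = 10 ∧ b = 1) ∨ (A = 11 ∧ b = 1) ∨
      (A = 8 ∧ b = 2) := by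
  have v1 := h.h1
  have v2 := h.h2
  obtain ⟨v3, v4, v5, v6, v7, v8, v9, v10, v11, -⟩ := vals h
  interval_cases A <;> interval_cases b <;> simp_all

lemma pairs5 (h : Sol f) (A b : ℕ) (hA : 1 ≤ A) (hA' : A ≤ 8) (hb : 1 ≤ b) (hb' : b ≤ 7)
    (hs : f A + f (b + 1) ≤ 5) (hd : 7 ≤ A + f b) : A = 6 ∧ b = 1 := by
  have v1 := h.h1
  have v2 := h.h2
  obtain ⟨v3, v4, v5, v6, v7, v8, v9, v10, v11, -⟩ := vals h
  interval_cases A <;> interval_cases b <;> simp_all

lemma tab5 (h : Sol f) (j : ℕ) (h1 : 1 ≤ j) (h5 : j ≤ 5) : f j ≤ 3 := by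
  have v1 := h.h1
  have v2 := h.h2
  obtain ⟨v3, v4, v5, v6, v7, v8, v9, v10, v11, -⟩ := vals h
  interval_cases j <;> omega

lemma tab3 (h : Sol f) (j : ℕ) (h1 : 1 ≤ j) (h5 : j ≤ 3) : f j ≤ 2 := by
  have v1 := h.h1
  have v2 := h.h2
  obtain ⟨v3, v4, v5, v6, v7, v8, v9, v10, v11, -⟩ := vals h
  interval_cases j <;> omega

lemma tab8 (h : Sol f) (j : ℕ) (h1 : 1 ≤ j) (h5 : j ≤ 8) : f j ≤ 5 := by
  have v1 := h.h1
  have v2 := h.h2
  obtain ⟨v3, v4, v5, v6, v7, v8, v9, v10, v11, -⟩ := vals h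
  interval_cases j <;> omega

lemma tab14 (h : Sol f) (j : ℕ) (h1 : 1 ≤ j) (h5 : j ≤ 14) : f j ≤ 8 := by
  have v1 := h.h1
  have v2 := h.h2
  obtain ⟨v3, v4, v5, v6, v7, v8, v9, v10, v11, v12, v13, v14, -⟩ := vals h
  interval_cases j <;> omega

lemma tab23 (h : Sol f) (j : ℕ) (h1 : 1 ≤ j) (h5 : j ≤ 23) : f j ≤ 12 := by
  have v1 := h.h1
  have v2 := h.h2
  obtain ⟨v3, v4, v5, v6, v7, v8, v9, v10, v11, v12, v13, v14, v15, v16, v17, v18, v19, v20, v21,
    v22, v23, -⟩ := vals h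
  interval_cases j <;> omega

/-- a small value beyond the initial ones forces a fixed point, and an earlier late small value -/
theorem seven (h : Sol f) {n : ℕ} (hn : 12 ≤ n) (h7 : f n ≤ 7) :
    ∃ m P : ℕ, 25 ≤ P ∧ P < m ∧ f m = m ∧ f (m + 2) = 7 ∧ m ≤ f (m + 1) + 9 ∧ f (m + 1) + 7 ≤ m ∧
      9 ≤ f (m - 1) ∧ f (m - 1) ≤ 11 ∧ f (m - 2) + P + 1 = m ∧ 8 ≤ f P ∧ f P ≤ 10 ∧
      16 ≤ f (P + 1) ∧ ∀ j, 12 ≤ j → j < m + 2 → 8 ≤ f j := by
  classical
  have hex : ∃ n, 12 ≤ n ∧ f n ≤ 7 := ⟨n, hn, h7⟩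
  obtain ⟨N, ⟨hN12, hN7⟩, hmin⟩ : ∃ N, (12 ≤ N ∧ f N ≤ 7) ∧ ∀ j, 12 ≤ j → j < N → 8 ≤ f j := by
    refine ⟨Nat.find hex, Nat.find_spec hex, fun j hj hlt => ?_⟩
    by_contra hc
    exact Nat.find_min hex hlt ⟨hj, by omega⟩
  have hN : 25 ≤ N := by
    obtain ⟨v3, v4, v5, v6, v7, v8, v9, v10, v11, v12, v13, v14, v15, v16, v17, v18, v19, v20, v21,
      v22, v23, v24⟩ := vals h
    by_contra hc
    have hN24 : N ≤ 24 := by omega
    clear hmin hex
    interval_cases N <;> omega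
  obtain ⟨k, rfl⟩ : ∃ k, N = k + 25 := ⟨N - 25, by omega⟩
  have small : ∀ j, j < k + 25 → f j ≤ 7 → j ≤ 11 := fun j hj h7 => by
    by_contra hc
    have := hmin j (by omega) hj
    omega
  -- the values before the small one
  have a1 := h.le (k + 24) (by omega)
  have a2 := h.pos (k + 24) (by omega)
  have b1 := h.le (k + 23) (by omega)
  have b2 := h.pos (k + 23) (by omega)
  have w1 := hmin (k + 22) (by omega) (by omega)
  have w2 := h.le (k + 22) (by omega)
  have p1 := h.le (k + 21) (by omega)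
  have p2 := h.pos (k + 21) (by omega)
  have q1 := h.le (k + 20) (by omega)
  have q2 := h.pos (k + 20) (by omega)
  obtain ⟨A, hA⟩ : ∃ A, f (k + 24) + A = k + 25 := ⟨k + 25 - f (k + 24), by omega⟩
  obtain ⟨b, hb⟩ : ∃ b, f (k + 23) + b = k + 24 := ⟨k + 24 - f (k + 23), by omega⟩
  obtain ⟨P, hP⟩ : ∃ P, f (k + 21) + P = k + 22 := ⟨k + 22 - f (k + 21), by omega⟩
  obtain ⟨Q, hQ⟩ : ∃ Q, f (k + 20) + Q = k + 22 := ⟨k + 22 - f (k + 20), by omega⟩
  have e0 : f (k + 25) = f A + f (b + 1) := by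
    have := h.eqn (k + 25) (by omega)
    rw [show k + 25 - 1 = k + 24 by omega, show k + 25 - 2 = k + 23 by omega,
      show k + 25 - f (k + 24) = A by omega, show k + 25 - f (k + 23) = b + 1 by omega] at this
    exact this
  have e1 : f (k + 24) = f b + f (k + 24 - f (k + 22)) := by
    have := h.eqn (k + 24) (by omega)
    rw [show k + 24 - 1 = k + 23 by omega, show k + 24 - 2 = k + 22 by omega,
      show k + 24 - f (k + 23) = b by omega] at this
    exact this
  have e2 : f (k + 23) = f (k + 23 - f (k + 22)) + f (P + 1) := by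
    have := h.eqn (k + 23) (by omega)
    rw [show k + 23 - 1 = k + 22 by omega, show k + 23 - 2 = k + 21 by omega,
      show k + 23 - f (k + 21) = P + 1 by omega] at this
    exact this
  have e3 : f (k + 22) = f P + f Q := by
    have := h.eqn (k + 22) (by omega)
    rw [show k + 22 - 1 = k + 21 by omega, show k + 22 - 2 = k + 20 by omega,
      show k + 22 - f (k + 21) = P by omega, show k + 22 - f (k + 20) = Q by omega] at this
    exact this
  have fA := h.pos A (by omega)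
  have fb := h.pos (b + 1) (by omega)
  have hA11 := small A (by omega) (by omega)
  have hb11 := small (b + 1) (by omega) (by omega)
  have l1 := h.le (k + 24 - f (k + 22)) (by omega)
  have l2 := h.le (k + 23 - f (k + 22)) (by omega)
  have fP := h.pos P (by omega)
  have fQ := h.pos Q (by omega)
  have hfb : f b ≤ b := h.le b (by omega)
  have hpair := pairs h A b (by omega) hA11 (by omega) (by omega) (by omega) (by omega)
  have v1 := h.h1
  have v2 := h.h2
  obtain ⟨v3, v4, v5, v6, v7, v8, v9, v10, v11, v12, v13, v14, v15, v16, v17, v18, v19, v20, v21,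
    v22, v23, v24⟩ := vals h
  rcases Nat.lt_or_ge (f (k + 22)) 9 with hw | hw
  · -- w = 8
    exfalso
    have hw8 : f (k + 22) = 8 := by omega
    have hP11 := small P (by omega) (by omega)
    rw [hw8] at e1 e2 l1 l2
    rw [show k + 24 - 8 = k + 16 by omega] at e1 l1
    rw [show k + 23 - 8 = k + 15 by omega] at e2 l2
    have hP12 : f (P + 1) ≤ 8 := tab14 h (P + 1) (by omega) (by omega)
    have e4 : f (k + 17) = f (A + f b - 8) + f (b + f (P + 1) - 7) := by
      have := h.eqn (k + 17) (by omega)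
      rw [show k + 17 - 1 = k + 16 by omega, show k + 17 - 2 = k + 15 by omega,
        show k + 17 - f (k + 16) = A + f b - 8 by omega,
        show k + 17 - f (k + 15) = b + f (P + 1) - 7 by omega] at this
      exact this
    have h8 := hmin (k + 17) (by omega) (by omega)
    have t1 : f (A + f b - 8) ≤ 3 := by
      refine tab5 h _ (by omega) ?_
      rcases hpair with ⟨rfl, rfl⟩ | ⟨rfl, rfl⟩ | ⟨rfl, rfl⟩ | ⟨rfl, rfl⟩ | ⟨rfl, rfl⟩ | ⟨rfl, rfl⟩ <;>
        omega
    have t2 : f (b + f (P + 1) - 7) ≤ 3 := by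
      refine tab5 h _ (by omega) ?_
      rcases hpair with ⟨rfl, rfl⟩ | ⟨rfl, rfl⟩ | ⟨rfl, rfl⟩ | ⟨rfl, rfl⟩ | ⟨rfl, rfl⟩ | ⟨rfl, rfl⟩ <;>
        omega
    omega
  · -- w at least 9
    have hb1 : b = 1 := by
      rcases hpair with ⟨rfl, rfl⟩ | ⟨rfl, rfl⟩ | ⟨rfl, rfl⟩ | ⟨rfl, rfl⟩ | ⟨rfl, rfl⟩ | ⟨rfl, rfl⟩ <;>
        omega
    subst hb1
    have hA9 : 9 ≤ A := by omega
    have hfA : f A = 6 := by
      interval_cases A <;> assumption
    have hwA : f (k + 22) ≤ A := by omega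
    have hfm : f (k + 23) = k + 23 := by omega
    have hg : f (k + 22) ≤ f (P + 1) := by omega
    have hP15 : 15 ≤ P + 1 := by
      by_contra hc
      have := tab14 h (P + 1) (by omega) (by omega)
      omega
    have hfP := hmin P (by omega) (by omega)
    have e4 : f (k + 25 - f (k + 22)) = f (A + 1 - f (k + 22)) + f (f (P + 1) + 2 - f (k + 22)) := by
      have := h.eqn (k + 25 - f (k + 22)) (by omega)
      rw [show k + 25 - f (k + 22) - 1 = k + 24 - f (k + 22) by omega,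
        show k + 25 - f (k + 22) - 2 = k + 23 - f (k + 22) by omega,
        show k + 25 - f (k + 22) - f (k + 24 - f (k + 22)) = A + 1 - f (k + 22) by omega,
        show k + 25 - f (k + 22) - f (k + 23 - f (k + 22)) = f (P + 1) + 2 - f (k + 22) by omega]
        at this
      exact this
    have h8 := hmin (k + 25 - f (k + 22)) (by omega) (by omega)
    have t3 : f (A + 1 - f (k + 22)) ≤ 2 := tab3 h _ (by omega) (by omega)
    have hg16 : f (k + 22) + 7 ≤ f (P + 1) := by
      by_contra hc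
      have := tab8 h (f (P + 1) + 2 - f (k + 22)) (by omega) (by omega)
      omega
    have hP24 : 24 ≤ P + 1 := by
      by_contra hc
      have := tab23 h (P + 1) (by omega) (by omega)
      omega
    have hP25 : 25 ≤ P := by
      by_contra hc
      have : P = 23 ∨ P = 24 := by omega
      rcases this with rfl | rfl <;> omega
    refine ⟨k + 23, P, hP25, by omega, hfm, ?_, ?_, ?_, ?_, ?_, ?_, hfP, by omega, by omega,
      fun j h1 h2 => hmin j h1 (by omega)⟩
    · change f (k + 25) = 7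
      omega
    · change k + 23 ≤ f (k + 24) + 9
      omega
    · change f (k + 24) + 7 ≤ k + 23
      omega
    · change 9 ≤ f (k + 22)
      omega
    · change f (k + 22) ≤ 11
      omega
    · change f (k + 21) + P + 1 = k + 23
      omega

/-- the values 1, ..., 5 are not taken beyond 8 -/
theorem six (h : Sol f) {n : ℕ} (hn : 9 ≤ n) : 6 ≤ f n := by
  classical
  by_contra h5
  have hex : ∃ n, 9 ≤ n ∧ f n ≤ 5 := ⟨n, hn, by omega⟩
  obtain ⟨N, ⟨hN12, hN7⟩, hmin⟩ : ∃ N, (9 ≤ N ∧ f N ≤ 5) ∧ ∀ j, 9 ≤ j → j < N → 6 ≤ f j := by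
    refine ⟨Nat.find hex, Nat.find_spec hex, fun j hj hlt => ?_⟩
    by_contra hc
    exact Nat.find_min hex hlt ⟨hj, by omega⟩
  have hN : 25 ≤ N := by
    obtain ⟨v3, v4, v5, v6, v7, v8, v9, v10, v11, v12, v13, v14, v15, v16, v17, v18, v19, v20, v21,
      v22, v23, v24⟩ := vals h
    by_contra hc
    have hN24 : N ≤ 24 := by omega
    clear hmin hex
    interval_cases N <;> omega
  obtain ⟨k, rfl⟩ : ∃ k, N = k + 25 := ⟨N - 25, by omega⟩
  have small : ∀ j, j < k + 25 → f j ≤ 5 → j ≤ 8 := fun j hj h7 => by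
    by_contra hc
    have := hmin j (by omega) hj
    omega
  have a1 := h.le (k + 24) (by omega)
  have a2 := h.pos (k + 24) (by omega)
  have b1 := h.le (k + 23) (by omega)
  have b2 := h.pos (k + 23) (by omega)
  have w1 := hmin (k + 22) (by omega) (by omega)
  have w2 := h.le (k + 22) (by omega)
  have p1 := h.le (k + 21) (by omega)
  have p2 := h.pos (k + 21) (by omega)
  have q1 := h.le (k + 20) (by omega)
  have q2 := h.pos (k + 20) (by omega)
  obtain ⟨A, hA⟩ : ∃ A, f (k + 24) + A = k + 25 := ⟨k + 25 - f (k + 24), by omega⟩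
  obtain ⟨b, hb⟩ : ∃ b, f (k + 23) + b = k + 24 := ⟨k + 24 - f (k + 23), by omega⟩
  obtain ⟨P, hP⟩ : ∃ P, f (k + 21) + P = k + 22 := ⟨k + 22 - f (k + 21), by omega⟩
  obtain ⟨Q, hQ⟩ : ∃ Q, f (k + 20) + Q = k + 22 := ⟨k + 22 - f (k + 20), by omega⟩
  have e0 : f (k + 25) = f A + f (b + 1) := by
    have := h.eqn (k + 25) (by omega)
    rw [show k + 25 - 1 = k + 24 by omega, show k + 25 - 2 = k + 23 by omega,
      show k + 25 - f (k + 24) = A by omega, show k + 25 - f (k + 23) = b + 1 by omega] at this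
    exact this
  have e1 : f (k + 24) = f b + f (k + 24 - f (k + 22)) := by
    have := h.eqn (k + 24) (by omega)
    rw [show k + 24 - 1 = k + 23 by omega, show k + 24 - 2 = k + 22 by omega,
      show k + 24 - f (k + 23) = b by omega] at this
    exact this
  have e2 : f (k + 23) = f (k + 23 - f (k + 22)) + f (P + 1) := by
    have := h.eqn (k + 23) (by omega)
    rw [show k + 23 - 1 = k + 22 by omega, show k + 23 - 2 = k + 21 by omega,
      show k + 23 - f (k + 21) = P + 1 by omega] at this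
    exact this
  have e3 : f (k + 22) = f P + f Q := by
    have := h.eqn (k + 22) (by omega)
    rw [show k + 22 - 1 = k + 21 by omega, show k + 22 - 2 = k + 20 by omega,
      show k + 22 - f (k + 21) = P by omega, show k + 22 - f (k + 20) = Q by omega] at this
    exact this
  have fA := h.pos A (by omega)
  have fb := h.pos (b + 1) (by omega)
  have hA11 := small A (by omega) (by omega)
  have hb11 := small (b + 1) (by omega) (by omega)
  have l1 := h.le (k + 24 - f (k + 22)) (by omega)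
  have l2 := h.le (k + 23 - f (k + 22)) (by omega)
  have fP := h.pos P (by omega)
  have fQ := h.pos Q (by omega)
  obtain ⟨rfl, rfl⟩ := pairs5 h A b (by omega) hA11 (by omega) (by omega) (by omega) (by omega)
  have v1 := h.h1
  have v2 := h.h2
  have hw6 : f (k + 22) = 6 := by omega
  have hP8 := small P (by omega) (by omega)
  rw [hw6] at e1 e2 l1 l2
  rw [show k + 24 - 6 = k + 18 by omega] at e1 l1
  rw [show k + 23 - 6 = k + 17 by omega] at e2 l2
  have hfP6 : f (P + 1) ≤ 6 := by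
    rcases Nat.lt_or_ge P 8 with hh | hh
    · have := tab8 h (P + 1) (by omega) (by omega)
      omega
    · have : P = 8 := by omega
      subst this
      obtain ⟨v3, v4, v5, v6, v7, v8, v9, -⟩ := vals h
      change f 9 ≤ 6
      omega
  have e4 : f (k + 19) = f 1 + f 2 := by
    have := h.eqn (k + 19) (by omega)
    rw [show k + 19 - 1 = k + 18 by omega, show k + 19 - 2 = k + 17 by omega,
      show k + 19 - f (k + 18) = 1 by omega,
      show k + 19 - f (k + 17) = 2 by omega] at this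
    exact this
  have := hmin (k + 19) (by omega) (by omega)
  omega

lemma pairs8 (h : Sol f) (A b : ℕ) (hA : 1 ≤ A) (hA' : A ≤ 17) (hb : 1 ≤ b) (hb' : b ≤ 16)
    (hs : f A + f (b + 1) = 8) (hd : 12 ≤ A + f b) : A = 11 ∧ b = 2 := by
  have v1 := h.h1
  have v2 := h.h2
  obtain ⟨v3, v4, v5, v6, v7, v8, v9, v10, v11, v12, v13, v14, v15, v16, v17, -⟩ := vals h
  interval_cases A <;> interval_cases b <;> simp_all

lemma tab18 (h : Sol f) (j : ℕ) (h1 : 1 ≤ j) (h5 : j ≤ 18) : f j ≤ 11 := by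
  have v1 := h.h1
  have v2 := h.h2
  obtain ⟨v3, v4, v5, v6, v7, v8, v9, v10, v11, v12, v13, v14, v15, v16, v17, v18, -⟩ := vals h
  interval_cases j <;> omega

lemma tabge (h : Sol f) (j : ℕ) (h1 : 12 ≤ j) (h5 : j ≤ 18) : 8 ≤ f j := by
  have v1 := h.h1
  have v2 := h.h2
  obtain ⟨v3, v4, v5, v6, v7, v8, v9, v10, v11, v12, v13, v14, v15, v16, v17, v18, -⟩ := vals h
  interval_cases j <;> omega

/-- the first late index with a value at most ten does not have the value eight -/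
theorem eight (h : Sol f) {Z : ℕ} (hZ : 25 ≤ Z) (h8 : f Z = 8)
    (hmin : ∀ j, 18 ≤ j → j < Z → 11 ≤ f j) : False := by
  obtain ⟨k, rfl⟩ : ∃ k, Z = k + 25 := ⟨Z - 25, by omega⟩
  have small : ∀ j, j < k + 25 → f j ≤ 10 → j ≤ 17 := fun j hj h7 => by
    by_contra hc
    have := hmin j (by omega) hj
    omega
  have a1 := h.le (k + 24) (by omega)
  have a2 := h.pos (k + 24) (by omega)
  have b1 := h.le (k + 23) (by omega)
  have b2 := h.pos (k + 23) (by omega)
  have w1 := hmin (k + 22) (by omega) (by omega)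
  have w2 := h.le (k + 22) (by omega)
  have p1 := h.le (k + 21) (by omega)
  have p2 := h.pos (k + 21) (by omega)
  have q1 := h.le (k + 20) (by omega)
  have q2 := h.pos (k + 20) (by omega)
  obtain ⟨A, hA⟩ : ∃ A, f (k + 24) + A = k + 25 := ⟨k + 25 - f (k + 24), by omega⟩
  obtain ⟨b, hb⟩ : ∃ b, f (k + 23) + b = k + 24 := ⟨k + 24 - f (k + 23), by omega⟩
  obtain ⟨P, hP⟩ : ∃ P, f (k + 21) + P = k + 22 := ⟨k + 22 - f (k + 21), by omega⟩
  obtain ⟨Q, hQ⟩ : ∃ Q, f (k + 20) + Q = k + 22 := ⟨k + 22 - f (k + 20), by omega⟩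
  have e0 : f (k + 25) = f A + f (b + 1) := by
    have := h.eqn (k + 25) (by omega)
    rw [show k + 25 - 1 = k + 24 by omega, show k + 25 - 2 = k + 23 by omega,
      show k + 25 - f (k + 24) = A by omega, show k + 25 - f (k + 23) = b + 1 by omega] at this
    exact this
  have e1 : f (k + 24) = f b + f (k + 24 - f (k + 22)) := by
    have := h.eqn (k + 24) (by omega)
    rw [show k + 24 - 1 = k + 23 by omega, show k + 24 - 2 = k + 22 by omega,
      show k + 24 - f (k + 23) = b by omega] at this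
    exact this
  have e2 : f (k + 23) = f (k + 23 - f (k + 22)) + f (P + 1) := by
    have := h.eqn (k + 23) (by omega)
    rw [show k + 23 - 1 = k + 22 by omega, show k + 23 - 2 = k + 21 by omega,
      show k + 23 - f (k + 21) = P + 1 by omega] at this
    exact this
  have e3 : f (k + 22) = f P + f Q := by
    have := h.eqn (k + 22) (by omega)
    rw [show k + 22 - 1 = k + 21 by omega, show k + 22 - 2 = k + 20 by omega,
      show k + 22 - f (k + 21) = P by omega, show k + 22 - f (k + 20) = Q by omega] at this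
    exact this
  have fA := h.pos A (by omega)
  have fb := h.pos (b + 1) (by omega)
  have hA11 := small A (by omega) (by omega)
  have hb11 := small (b + 1) (by omega) (by omega)
  have l1 := h.le (k + 24 - f (k + 22)) (by omega)
  have l2 := h.le (k + 23 - f (k + 22)) (by omega)
  have fP := h.pos P (by omega)
  have fQ := h.pos Q (by omega)
  obtain ⟨rfl, rfl⟩ := pairs8 h A b (by omega) hA11 (by omega) (by omega) (by omega) (by omega)
  have v1 := h.h1
  have v2 := h.h2
  have hw : f (k + 22) = 11 := by omega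
  have hP17 := small P (by omega) (by omega)
  have hg := tab18 h (P + 1) (by omega) (by omega)
  rw [hw] at e1 e2 l1 l2
  rw [show k + 24 - 11 = k + 13 by omega] at e1 l1
  rw [show k + 23 - 11 = k + 12 by omega] at e2 l2
  have e4 : f (k + 14) = f 1 + f (f (P + 1) - 8) := by
    have := h.eqn (k + 14) (by omega)
    rw [show k + 14 - 1 = k + 13 by omega, show k + 14 - 2 = k + 12 by omega,
      show k + 14 - f (k + 13) = 1 by omega,
      show k + 14 - f (k + 12) = f (P + 1) - 8 by omega] at this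
    exact this
  have t := tab3 h (f (P + 1) - 8) (by omega) (by omega)
  have hpos := h.pos (k + 14) (by omega)
  rcases Nat.lt_or_ge (k + 14) 18 with hk | hk
  · have := tabge h (k + 14) (by omega) (by omega)
    omega
  · have := hmin (k + 14) (by omega) (by omega)
    omega

/-- if a small value is taken beyond the initial ones, then nine or ten is taken late -/
theorem nine_or_ten (h : Sol f) {n : ℕ} (hn : 12 ≤ n) (h7 : f n ≤ 7) :
    ∃ x, 25 ≤ x ∧ (f x = 9 ∨ f x = 10) := by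
  classical
  obtain ⟨m, P, c1, c2, -, -, -, -, -, -, -, c3, c4, -, c5⟩ := seven h hn h7
  have hex : ∃ n, 18 ≤ n ∧ f n ≤ 10 := ⟨P, by omega, c4⟩
  have hZP : Nat.find hex ≤ P := Nat.find_min' hex ⟨by omega, c4⟩
  have hmin : ∀ j, 18 ≤ j → j < Nat.find hex → 11 ≤ f j := fun j h1 h2 => by
    by_contra hc
    exact Nat.find_min hex h2 ⟨h1, by omega⟩
  obtain ⟨s1, s2⟩ := Nat.find_spec hex
  generalize Nat.find hex = Z at hZP hmin s1 s2
  have hZ : 25 ≤ Z := by
    obtain ⟨v3, v4, v5, v6, v7, v8, v9, v10, v11, v12, v13, v14, v15, v16, v17, v18, v19, v20, v21,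
      v22, v23, v24⟩ := vals h
    by_contra hc
    have hN24 : Z ≤ 24 := by omega
    clear hmin
    interval_cases Z <;> omega
  have h8 := c5 Z (by omega) (by omega)
  have hne : f Z ≠ 8 := fun h8 => eight h hZ h8 hmin
  exact ⟨Z, hZ, by omega⟩

end Pool.Agent.H10HQ
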